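import Pool.Agent.MP_6bff71_co.OC.All

/-!
For all `k ≥ 3` and `r ≥ 2` there is one `r`-colouring of the positive integers, the same for
every `n`, whose number of monochromatic `k`-term progressions in `[n]` is `δ n ^ 2 + O(n)` with
`δ` below the random rate.
-/

namespace Pool.Agent.Results.MP_6bff71_co.OneColouring

/-- The number of sets `{a, a + d, …, a + (k - 1) d} ⊆ [n]` with `a ≥ 1` and `d ≥ 1` on which the
colouring `χ : ℕ → Fin r` is constant. -/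
noncomputable def monoCount (k n : ℕ) {r : ℕ} (χ : ℕ → Fin r) : ℕ :=
  Set.ncard {S : Finset ℕ |
    (∃ a d : ℕ, 1 ≤ a ∧ 1 ≤ d ∧ S = (Finset.range k).image (fun i => a + i * d)) ∧
    S ⊆ Finset.Icc 1 n ∧ ∀ x ∈ S, ∀ y ∈ S, χ x = χ y}

open Finset Pool.Agent.MP_6bff71_co in
lemma monoCount_eq (k n : ℕ) (hk : 2 ≤ k) {r : ℕ} (χ : ℕ → Fin r) :
    monoCount k n χ = OC.cnt k n χ := by
  have h0 : 0 ∈ range k := mem_range.2 (by omega)
  have hD : k - 1 ∈ range k := mem_range.2 (by omega)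
  have hP : ∀ i ∈ range k, i ≤ k - 1 := fun i hi => by have := mem_range.1 hi; omega
  have hinj : Set.InjOn (fun q : ℕ × ℕ => (range k).image (fun i => q.1 + i * q.2))
      ((AP k n).filter (fun q => ∀ i ∈ range k, χ (q.1 + i * q.2) = χ q.1) : Finset (ℕ × ℕ)) := by
    have key : ∀ q q' : ℕ × ℕ, (range k).image (fun i => q.1 + i * q.2)
        = (range k).image (fun i => q'.1 + i * q'.2) →
        ∀ i ∈ range k, ∃ j, j * q'.2 ≤ (k - 1) * q'.2 ∧ q'.1 + j * q'.2 = q.1 + i * q.2 := by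
      intro q q' h i hi
      have : q.1 + i * q.2 ∈ (range k).image (fun i => q'.1 + i * q'.2) := by
        rw [← h]
        exact mem_image_of_mem _ hi
      obtain ⟨j, hj, hj'⟩ := mem_image.1 this
      exact ⟨j, Nat.mul_le_mul_right _ (hP j hj), hj'⟩
    intro q _ q' _ h
    obtain ⟨j1, -, h1⟩ := key q q' h 0 h0
    obtain ⟨j2, -, h2⟩ := key q' q h.symm 0 h0
    obtain ⟨j3, h3, h3'⟩ := key q q' h _ hD
    obtain ⟨j4, h4, h4'⟩ := key q' q h.symm _ hD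
    have e1 : q.1 = q'.1 := by omega
    have e2 : (k - 1) * q.2 = (k - 1) * q'.2 := by omega
    exact Prod.ext e1 (Nat.eq_of_mul_eq_mul_left (by omega) e2)
  rw [OC.cnt, ← Finset.card_image_of_injOn hinj, ← Set.ncard_coe_finset]
  unfold monoCount
  refine congrArg Set.ncard ?_
  ext S
  simp only [Set.mem_ofPred_eq, coe_image, Set.mem_image, mem_coe, mem_filter, mem_AP hk]
  constructor
  · rintro ⟨⟨a, d, ha, hd, rfl⟩, hsub, hmono⟩
    have hmem : ∀ i ∈ range k, a + i * d ∈ (range k).image (fun i => a + i * d) :=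
      fun i hi => mem_image_of_mem _ hi
    refine ⟨(a, d), ⟨⟨ha, hd, (mem_Icc.1 (hsub (hmem _ hD))).2⟩, ?_⟩, rfl⟩
    intro i hi
    have h1 : a ∈ (range k).image (fun i => a + i * d) := by simpa using hmem 0 h0
    exact hmono _ (hmem i hi) _ h1
  · rintro ⟨q, ⟨⟨h1, h2, h3⟩, h4⟩, rfl⟩
    refine ⟨⟨q.1, q.2, h1, h2, rfl⟩, ?_, ?_⟩
    · intro x hx
      obtain ⟨i, hi, rfl⟩ := mem_image.1 hx
      have : i * q.2 ≤ (k - 1) * q.2 := Nat.mul_le_mul_right _ (hP i hi)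
      rw [mem_Icc]
      omega
    · intro x hx y hy
      obtain ⟨i, hi, hx'⟩ := mem_image.1 hx
      obtain ⟨j, hj, hy'⟩ := mem_image.1 hy
      rw [← hx', ← hy', h4 i hi, h4 j hj]

theorem result (k r : ℕ) (hk : 3 ≤ k) (hr : 2 ≤ r) :
    ∃ χ : ℕ → Fin r, ∃ δ : ℝ, δ < 1 / (2 * ((k : ℝ) - 1) * (r : ℝ) ^ (k - 1)) ∧
      ∃ C : ℝ, ∀ n : ℕ, |(monoCount k n χ : ℝ) - δ * (n : ℝ) ^ 2| ≤ C * n := by
  simp only [monoCount_eq k _ (by omega : 2 ≤ k)]
  exact Pool.Agent.MP_6bff71_co.OC.one_all k r hk hr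

/-- The posed question, with a colouring of `[n]` for each `n`: restrict the one colouring. -/
theorem posed (k r : ℕ) (hk : 3 ≤ k) (hr : 2 ≤ r) :
    ∃ δ : ℝ, δ < 1 / (2 * ((k : ℝ) - 1) * (r : ℝ) ^ (k - 1)) ∧
      ∃ χ : ℕ → ℕ → Fin r, ∃ C : ℝ, ∀ n : ℕ,
        |(monoCount k n (χ n) : ℝ) - δ * (n : ℝ) ^ 2| ≤ C * n := by
  obtain ⟨χ, δ, h1, C, h2⟩ := result k r hk hr
  exact ⟨δ, h1, fun _ => χ, C, h2⟩

/-- The colouring can be taken periodic exactly when `(k, r) ≠ (3, 2)`. -/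
theorem periodic_iff (k r : ℕ) (hk : 3 ≤ k) (hr : 2 ≤ r) :
    (∃ χ : ℕ → Fin r, (∃ δ : ℝ, δ < 1 / (2 * ((k : ℝ) - 1) * (r : ℝ) ^ (k - 1)) ∧
      ∃ C : ℝ, ∀ n : ℕ, |(monoCount k n χ : ℝ) - δ * (n : ℝ) ^ 2| ≤ C * n) ∧
      ∃ m, 0 < m ∧ Function.Periodic χ m) ↔ (k, r) ≠ (3, 2) := by
  simp only [monoCount_eq k _ (by omega : 2 ≤ k)]
  refine ⟨?_, Pool.Agent.MP_6bff71_co.OC.periodic_all k r hk hr⟩
  rintro ⟨χ, h1, m, hm, h2⟩ h
  obtain ⟨rfl, rfl⟩ := Prod.mk.inj h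
  exact Pool.Agent.MP_6bff71_co.OC.not_periodic χ h1 m hm h2

/-- For `k = 3`, `r = 2` the colour classes of such a colouring have no natural density. -/
theorem no_density (χ : ℕ → Fin 2) (δ C : ℝ) (hδ : δ < 1 / 16)
    (h : ∀ n : ℕ, |(monoCount 3 n χ : ℝ) - δ * (n : ℝ) ^ 2| ≤ C * n) (c : Fin 2) (β : ℝ) :
    ¬ Filter.Tendsto (fun t : ℕ => (((Finset.Icc 1 t).filter (fun x => χ x = c)).card : ℝ) / t)
      Filter.atTop (nhds β) := by
  simp only [monoCount_eq 3 _ (by omega : 2 ≤ 3)] at h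
  exact Pool.Agent.MP_6bff71_co.OC.no_density χ ⟨δ, by norm_num; exact hδ, C, h⟩ c β

end Pool.Agent.Results.MP_6bff71_co.OneColouring
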