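import Mathlib
import Pool.Agent.MP_6bff71_co.Main

/-!
For every finite pattern `P ⊆ ℕ` with `0 ∈ P` and at least three points, and every `r ≥ 2`, there
are `r`-colourings of `[n]` whose number of monochromatic copies `a + d P` is `δ n ^ 2 + O(n)` with
`δ` below the random rate.  The pattern `P = {0, 1, …, k - 1}` gives `k`-term progressions.
-/

namespace Pool.Agent.Results.MP_6bff71_co.Patterns

/-- The number of sets `{a + i d : i ∈ P} ⊆ [n]` with `a ≥ 1` and `d ≥ 1` on which the colouring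
`χ : [n] → Fin r` is constant. -/
noncomputable def monoCount (P : Finset ℕ) (n : ℕ) {r : ℕ} (χ : Finset.Icc 1 n → Fin r) : ℕ :=
  Set.ncard {S : Finset ℕ |
    (∃ a d : ℕ, 1 ≤ a ∧ 1 ≤ d ∧ S = P.image (fun i => a + i * d)) ∧
    S ⊆ Finset.Icc 1 n ∧
    ∀ x y : Finset.Icc 1 n, (x : ℕ) ∈ S → (y : ℕ) ∈ S → χ x = χ y}

open Finset Pool.Agent.MP_6bff71_co in
lemma monoCount_eq (P : Finset ℕ) (D n : ℕ) (h0 : 0 ∈ P) (hD : D ∈ P) (hD1 : 1 ≤ D)
    (hP : ∀ i ∈ P, i ≤ D) {r : ℕ} (χ : ℕ → Fin r) :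
    monoCount P n (fun x : Finset.Icc 1 n => χ x)
      = ((AP (D + 1) n).filter (fun q => ∀ i ∈ P, χ (q.1 + i * q.2) = χ q.1)).card := by
  have hk : 2 ≤ D + 1 := by omega
  have hinj : Set.InjOn (fun q : ℕ × ℕ => P.image (fun i => q.1 + i * q.2))
      ((AP (D + 1) n).filter (fun q => ∀ i ∈ P, χ (q.1 + i * q.2) = χ q.1) : Finset (ℕ × ℕ)) := by
    have key : ∀ q q' : ℕ × ℕ, P.image (fun i => q.1 + i * q.2)
        = P.image (fun i => q'.1 + i * q'.2) →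
        ∀ i ∈ P, ∃ j, j * q'.2 ≤ D * q'.2 ∧ q'.1 + j * q'.2 = q.1 + i * q.2 := by
      intro q q' h i hi
      have : q.1 + i * q.2 ∈ P.image (fun i => q'.1 + i * q'.2) := by
        rw [← h]
        exact mem_image_of_mem _ hi
      obtain ⟨j, hj, hj'⟩ := mem_image.1 this
      exact ⟨j, Nat.mul_le_mul_right _ (hP j hj), hj'⟩
    intro q _ q' _ h
    obtain ⟨j1, -, h1⟩ := key q q' h 0 h0
    obtain ⟨j2, -, h2⟩ := key q' q h.symm 0 h0
    obtain ⟨j3, h3, h3'⟩ := key q q' h D hD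
    obtain ⟨j4, h4, h4'⟩ := key q' q h.symm D hD
    have e1 : q.1 = q'.1 := by omega
    have e2 : D * q.2 = D * q'.2 := by omega
    exact Prod.ext e1 (Nat.eq_of_mul_eq_mul_left hD1 e2)
  rw [← Finset.card_image_of_injOn hinj, ← Set.ncard_coe_finset]
  unfold monoCount
  congr 1
  ext S
  simp only [Set.mem_ofPred_eq, coe_image, Set.mem_image, mem_coe, mem_filter, mem_AP hk,
    add_tsub_cancel_right]
  constructor
  · rintro ⟨⟨a, d, ha, hd, rfl⟩, hsub, hmono⟩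
    have hmem : ∀ i ∈ P, a + i * d ∈ P.image (fun i => a + i * d) :=
      fun i hi => mem_image_of_mem _ hi
    refine ⟨(a, d), ⟨⟨ha, hd, (mem_Icc.1 (hsub (hmem D hD))).2⟩, ?_⟩, rfl⟩
    intro i hi
    have h1 : a ∈ P.image (fun i => a + i * d) := by simpa using hmem 0 h0
    exact hmono ⟨_, hsub (hmem i hi)⟩ ⟨_, hsub h1⟩ (hmem i hi) h1
  · rintro ⟨q, ⟨⟨h1, h2, h3⟩, h4⟩, rfl⟩
    refine ⟨⟨q.1, q.2, h1, h2, rfl⟩, ?_, ?_⟩
    · intro x hx
      obtain ⟨i, hi, rfl⟩ := mem_image.1 hx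
      have : i * q.2 ≤ D * q.2 := Nat.mul_le_mul_right _ (hP i hi)
      rw [mem_Icc]
      omega
    · intro x y hx hy
      obtain ⟨i, hi, hx'⟩ := mem_image.1 hx
      obtain ⟨j, hj, hy'⟩ := mem_image.1 hy
      rw [← hx', ← hy', h4 i hi, h4 j hj]

theorem result (P : Finset ℕ) (D r : ℕ) (h0 : 0 ∈ P) (hD : IsGreatest (P : Set ℕ) D)
    (hcard : 3 ≤ P.card) (hr : 2 ≤ r) :
    ∃ δ : ℝ, δ < 1 / (2 * (D : ℝ) * (r : ℝ) ^ (P.card - 1)) ∧
      ∃ χ : (n : ℕ) → Finset.Icc 1 n → Fin r, ∃ C : ℝ, ∀ n : ℕ,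
        |(monoCount P n (χ n) : ℝ) - δ * (n : ℝ) ^ 2| ≤ C * n := by
  have hP : ∀ i ∈ P, i ≤ D := fun i hi => hD.2 hi
  obtain ⟨s, hs, hs'⟩ : ∃ s ∈ P, s ∉ ({0, D} : Finset ℕ) := by
    apply Finset.exists_mem_notMem_of_card_lt_card
    have := Finset.card_le_two (a := 0) (b := D)
    omega
  simp only [Finset.mem_insert, Finset.mem_singleton, not_or] at hs'
  have hsD := hP s hs
  obtain ⟨δ, hδ, χ, C, h⟩ := Pool.Agent.MP_6bff71_co.main (D + 1) r s hr P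
    (fun i hi => Nat.lt_succ_of_le (hP i hi)) (by omega) (by omega) hs hD.1
  refine ⟨δ, by simpa using hδ, fun n x => χ n x, C, fun n => ?_⟩
  rw [monoCount_eq P D n h0 hD.1 (by omega) hP (χ n)]
  exact h n

/-- The case of `k`-term arithmetic progressions, as a check of the specialisation. -/
example (k r : ℕ) (hk : 3 ≤ k) (hr : 2 ≤ r) :
    ∃ δ : ℝ, δ < 1 / (2 * ((k : ℝ) - 1) * (r : ℝ) ^ (k - 1)) ∧
      ∃ χ : (n : ℕ) → Finset.Icc 1 n → Fin r, ∃ C : ℝ, ∀ n : ℕ,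
        |(monoCount (Finset.range k) n (χ n) : ℝ) - δ * (n : ℝ) ^ 2| ≤ C * n := by
  have h := result (Finset.range k) (k - 1) r (by simp; omega)
    ⟨by simp; omega, fun i hi => by simp at hi; omega⟩ (by simpa using hk) hr
  rwa [Finset.card_range, Nat.cast_sub (by omega), Nat.cast_one] at h

end Pool.Agent.Results.MP_6bff71_co.Patterns
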